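import Pool.Agent.H27.HB.TC

/-!
# Common lemmas for the centring rows
-/

set_option autoImplicit false

namespace Pool.Agent.H15.HB
open MeasureTheory Set Filter Topology Pool.Agent.H80.HS Pool.Agent.H93.HQ Pool.Agent.H27.HB
open scoped ContDiff ENNReal

variable {n : ℕ}

lemma nu_eq : (nu : H n → ℂ) = fun z => ((1 + sq z : ℝ) : ℂ) + ((-z.2.2 : ℝ) : ℂ) * Complex.I := by
  funext z
  apply Complex.ext
  · simp [nu]
  · simp [nu]

lemma continuous_nu : Continuous (nu : H n → ℂ) := by
  rw [nu_eq]
  have := continuous_sq (n := n)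
  fun_prop

lemma nu_ne (z : H n) : nu z ≠ 0 := by
  intro h
  have h1 : (nu z).re = 0 := by rw [h]; rfl
  have h2 : (nu z).re = 1 + sq z := rfl
  have := sq_nonneg' z
  linarith

lemma continuous_ww : Continuous (ww : H n → ℝ) := by
  unfold ww
  have := continuous_sq (n := n)
  fun_prop

lemma ww_pos (z : H n) : 0 < ww z := by
  unfold ww
  have := sq_nonneg' z
  positivity

lemma zc_eq (j : Fin n) : (zc j : H n → ℂ) = fun z => ((z.1 j : ℝ) : ℂ) +
    ((z.2.1 j : ℝ) : ℂ) * Complex.I := by
  funext z
  apply Complex.ext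
  · simp [zc]
  · simp [zc]

lemma continuous_zc (j : Fin n) : Continuous (zc j : H n → ℂ) := by
  rw [zc_eq]
  fun_prop

lemma continuous_zz (i : Option (Fin n)) : Continuous (zz i : H n → ℂ) := by
  have h1 := continuous_nu (n := n)
  cases i with
  | none =>
    change Continuous fun z : H n => 2 / nu z - 1
    exact (continuous_const.div h1 nu_ne).sub continuous_const
  | some j =>
    change Continuous fun z : H n => 2 * zc j z / nu z
    exact (continuous_const.mul (continuous_zc j)).div h1 nu_ne

lemma continuous_rz (i : Option (Fin n)) (b : Bool) : Continuous (rz i b : H n → ℝ) := by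
  cases b with
  | false => exact Complex.continuous_im.comp (continuous_zz i)
  | true => exact Complex.continuous_re.comp (continuous_zz i)

/-- the quotient as a square -/
lemma quot_eq (hQF : T_QF) (x a : H n) {r : ℝ} (hr : 0 < r) :
    ww (dil r (mul a x)) / (r ^ 2 * ww x) = ‖cA a r + ∑ i, cB a r i * zz i x‖ ^ 2 := by
  obtain ⟨h1, -, -, h4, h5⟩ := hQF n x a r hr
  obtain ⟨-, -, -, -, h6⟩ := hQF n (dil r (mul a x)) a r hr
  rw [← h6, h1, norm_mul, norm_mul, mul_pow, mul_pow, h5, Complex.norm_real, Real.norm_eq_abs,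
    sq_abs, mul_div_cancel_left₀]
  positivity

lemma quot_pos (x a : H n) {r : ℝ} (hr : 0 < r) :
    0 < ww (dil r (mul a x)) / (r ^ 2 * ww x) := by
  have h1 := ww_pos x
  have h2 := ww_pos (dil r (mul a x))
  positivity

lemma continuous_log_quot (a : H n) {r : ℝ} (hr : 0 < r) :
    Continuous fun x : H n => Real.log (ww (dil r (mul a x)) / (r ^ 2 * ww x)) := by
  have h1 := continuous_ww (n := n)
  have h2 := continuous_dil (n := n) r
  have h3 := continuous_mul a
  refine Continuous.log ?_ fun x => (quot_pos x a hr).ne'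
  refine Continuous.div (h1.comp (h2.comp h3)) (continuous_const.mul h1) fun x => ?_
  have := ww_pos x
  positivity

lemma abs_rz_le (hQF : T_QF) (i : Option (Fin n)) (b : Bool) (z : H n) : |rz i b z| ≤ 1 := by
  obtain ⟨-, -, h3, -, -⟩ := hQF n z z 1 one_pos
  have h4 : ‖zz i z‖ ^ 2 ≤ 1 := by
    rw [← h3]
    exact Finset.single_le_sum (f := fun i => ‖zz i z‖ ^ 2) (fun i _ => sq_nonneg _)
      (Finset.mem_univ i)
  have h5 : ‖zz i z‖ ≤ 1 := by nlinarith [norm_nonneg (zz i z)]
  cases b with
  | false => exact (Complex.abs_im_le_norm _).trans h5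
  | true => exact (Complex.abs_re_le_norm _).trans h5

lemma integrable_rho_log' (hLGB : T_LGB) {ρ : H n → ℝ} (h1 : Integrable ρ) (a : H n)
    {r : ℝ} (hr : 0 < r) :
    Integrable fun x => ρ x * Real.log (ww (dil r (mul a x)) / (r ^ 2 * ww x)) := by
  refine (h1.norm.mul_const (2 * Real.log (2 * ‖cA a r‖))).mono'
    (h1.aestronglyMeasurable.mul (continuous_log_quot a hr).aestronglyMeasurable) ?_
  refine Eventually.of_forall fun x => ?_
  rw [norm_mul]
  exact mul_le_mul_of_nonneg_left (hLGB n x a r hr).2 (norm_nonneg _)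

end Pool.Agent.H15.HB
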