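import Pool.Agent.H15.HB.CB

set_option autoImplicit false

namespace Pool.Agent.H15.HB
open MeasureTheory Set Filter Topology Pool.Agent.H80.HS Pool.Agent.H93.HQ Pool.Agent.H27.HB
open scoped ContDiff ENNReal

theorem pf_CEN (hMNC : T_MNC) (hCRI : T_CRI) : T_CEN := by
  intro n hn ρ h1 h2 h3
  obtain ⟨a, r, hr, h4⟩ := hMNC n hn ρ h1 h2 h3
  exact ⟨a, r, hr, hCRI n hn ρ h1 h2 a r hr h4⟩

end Pool.Agent.H15.HB
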