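import Pool.Agent.H15.HB.CB

set_option autoImplicit false

namespace Pool.Agent.H15.HB
open MeasureTheory Set Filter Topology Pool.Agent.H80.HS Pool.Agent.H93.HQ Pool.Agent.H27.HB
open scoped ContDiff ENNReal

lemma crit (hQF : T_QF) (hLGB : T_LGB) {n : ℕ} {ρ : H n → ℝ} (h1 : Integrable ρ)
    {a : H n} {r : ℝ} (hr : 0 < r)
    (hmin : ∀ (a' : H n) (r' : ℝ), 0 < r' → Psi ρ (a, r) ≤ Psi ρ (a', r'))
    (i : Option (Fin n)) (b : Bool) (c : ℝ) (hc : c ≠ 0) (lam : ℝ → H n → H n) (e : ℝ → ℝ)
    (he : e 0 = 0) (hl0 : ∀ y, lam 0 y = y) (hlc : ∀ s, Continuous (lam s))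
    (hfam : ∀ s, ∃ (a' : H n) (r' : ℝ), 0 < r' ∧ r' ^ 2 = Real.exp (e s) * r ^ 2 ∧
      ∀ x, dil r' (mul a' x) = lam s (dil r (mul a x)))
    (hder : ∀ y s, HasDerivAt (fun s => Real.log (ww (lam s y)) - e s)
      (c * rz i b (lam s y)) s) :
    ∫ z, ρ z * rz i b (dil r (mul a z)) = 0 := by
  have hww := continuous_ww (n := n)
  have hy : Continuous fun x : H n => dil r (mul a x) :=
    (continuous_dil r).comp (continuous_mul a)
  set F : ℝ → H n → ℝ := fun s x => ρ x *
    (Real.log (ww (lam s (dil r (mul a x)))) - e s - Real.log (r ^ 2 * ww x)) with hF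
  set F' : ℝ → H n → ℝ := fun s x => ρ x * (c * rz i b (lam s (dil r (mul a x)))) with hF'
  -- the value of `∫ F s`
  have hval : ∀ s, ∃ (a' : H n) (r' : ℝ), 0 < r' ∧ Psi ρ (a', r') = ∫ x, F s x := by
    intro s
    obtain ⟨a', r', hr', h4, h5⟩ := hfam s
    refine ⟨a', r', hr', ?_⟩
    unfold Psi
    refine integral_congr_ae (Eventually.of_forall fun x => ?_)
    simp only [hF]
    have h6 := ww_pos x
    have h7 := ww_pos (lam s (dil r (mul a x)))
    rw [h5 x, h4, Real.log_div h7.ne' (by positivity), mul_assoc,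
      Real.log_mul (Real.exp_pos _).ne' (by positivity), Real.log_exp]
    ring
  have hF0 : ∫ x, F 0 x = Psi ρ (a, r) := by
    unfold Psi
    refine integral_congr_ae (Eventually.of_forall fun x => ?_)
    simp only [hF]
    have h6 := ww_pos x
    have h7 := ww_pos (dil r (mul a x))
    rw [hl0, he, sub_zero, Real.log_div h7.ne' (by positivity)]
  have hmeas : ∀ s, AEStronglyMeasurable (F s) volume := by
    intro s
    refine h1.aestronglyMeasurable.mul (Continuous.aestronglyMeasurable ?_)
    refine ((Continuous.log ?_ fun x => (ww_pos _).ne').sub continuous_const).sub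
      (Continuous.log (continuous_const.mul hww) fun x => ?_)
    · exact hww.comp ((hlc s).comp hy)
    · have := ww_pos x
      positivity
  have hint0 : Integrable (F 0) := by
    refine (integrable_rho_log' hLGB h1 a hr).congr (Eventually.of_forall fun x => ?_)
    simp only [hF]
    have h6 := ww_pos x
    have h7 := ww_pos (dil r (mul a x))
    rw [hl0, he, sub_zero, Real.log_div h7.ne' (by positivity)]
  have hmeas' : AEStronglyMeasurable (F' 0) volume := by
    refine h1.aestronglyMeasurable.mul (Continuous.aestronglyMeasurable ?_)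
    exact continuous_const.mul ((continuous_rz i b).comp ((hlc 0).comp hy))
  have hD := (hasDerivAt_integral_of_dominated_loc_of_deriv_le (μ := volume) (F := F) (F' := F')
    (x₀ := (0 : ℝ)) (s := univ) (bound := fun x => ‖ρ x‖ * |c|) univ_mem
    (Eventually.of_forall hmeas) hint0 hmeas'
    (Eventually.of_forall fun x s _ => by
      simp only [hF']
      rw [norm_mul, Real.norm_eq_abs (c * _), abs_mul]
      refine mul_le_mul_of_nonneg_left ?_ (norm_nonneg _)
      have := abs_rz_le hQF i b (lam s (dil r (mul a x)))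
      nlinarith [abs_nonneg c])
    (h1.norm.mul_const _)
    (Eventually.of_forall fun x s _ => by
      simp only [hF, hF']
      exact ((hder (dil r (mul a x)) s).sub_const _).const_mul (ρ x))).2
  have hloc : IsLocalMin (fun s => ∫ x, F s x) 0 := by
    refine Eventually.of_forall fun s => ?_
    obtain ⟨a', r', hr', h4⟩ := hval s
    change (∫ x, F 0 x) ≤ ∫ x, F s x
    rw [hF0, ← h4]
    exact hmin a' r' hr'
  have h0 := hloc.hasDerivAt_eq_zero hD
  have h5 : ∫ x, F' 0 x = c * ∫ z, ρ z * rz i b (dil r (mul a z)) := by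
    rw [← integral_const_mul]
    refine integral_congr_ae (Eventually.of_forall fun x => ?_)
    simp only [hF', hl0]
    ring
  rw [h5] at h0
  exact (mul_eq_zero.1 h0).resolve_left hc

theorem pf_CRI (hQF : T_QF) (hDRV : T_DRV) (hLGB : T_LGB) (hGRP : T_GRP) : T_CRI := by
  intro n hn ρ h1 h2 a r hr hmin i b
  have htr : ∀ c : H n, ∃ (a' : H n) (r' : ℝ), 0 < r' ∧ r' ^ 2 = Real.exp 0 * r ^ 2 ∧
      ∀ x, dil r' (mul a' x) = mul c (dil r (mul a x)) := by
    intro c
    refine ⟨mul (dil r⁻¹ c) a, r, hr, by rw [Real.exp_zero, one_mul], fun x => ?_⟩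
    obtain ⟨g1, -, -, -, -, -, -⟩ := hGRP n (dil r⁻¹ c) a x r r
    obtain ⟨-, -, -, g4, -, -, -⟩ := hGRP n (dil r⁻¹ c) (mul a x) x r r
    rw [g1, g4, dil_dil_inv hr.ne']
  have hsg : ∀ j : Fin n, EuclideanSpace.single j (0 : ℝ) = (0 : V n) := fun j => by
    ext k
    simp
  rcases i with _ | j
  · rcases b with _ | _
    · refine crit hQF hLGB h1 hr hmin none false 1 one_ne_zero
        (fun s y => mul ((0, 0, s) : H n) y) (fun _ => 0) rfl (fun y => zero_mul' y)
        (fun s => continuous_mul _) (fun s => htr _) fun y s => ?_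
      obtain ⟨-, d2, -⟩ := hDRV n y s
      simpa using d2
    · refine crit hQF hLGB h1 hr hmin none true (-2) (by norm_num)
        (fun s y => dil (Real.exp s) y) (fun s => 2 * s) (by ring)
        (fun y => by rw [Real.exp_zero, dil_one]) (fun s => continuous_dil _) (fun s => ?_)
        fun y s => ?_
      · refine ⟨a, Real.exp s * r, by positivity, ?_, fun x => by rw [dil_dil]⟩
        rw [mul_pow, ← Real.exp_nat_mul]
        push_cast
        ring
      · exact (hDRV n y s).1
  · rcases b with _ | _
    · refine crit hQF hLGB h1 hr hmin (some j) false 2 (by norm_num)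
        (fun s y => mul ((0, EuclideanSpace.single j s, 0) : H n) y) (fun _ => 0) rfl
        (fun y => by
          rw [hsg]
          exact zero_mul' y)
        (fun s => continuous_mul _) (fun s => htr _) fun y s => ?_
      obtain ⟨-, -, d3⟩ := hDRV n y s
      simpa using (d3 j).2
    · refine crit hQF hLGB h1 hr hmin (some j) true 2 (by norm_num)
        (fun s y => mul ((EuclideanSpace.single j s, 0, 0) : H n) y) (fun _ => 0) rfl
        (fun y => by
          rw [hsg]
          exact zero_mul' y)
        (fun s => continuous_mul _) (fun s => htr _) fun y s => ?_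
      obtain ⟨-, -, d3⟩ := hDRV n y s
      simpa using (d3 j).1

end Pool.Agent.H15.HB
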