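import Pool.Agent.H15.HB.CB

set_option autoImplicit false

namespace Pool.Agent.H15.HB
open MeasureTheory Set Filter Topology Pool.Agent.H80.HS Pool.Agent.H93.HQ Pool.Agent.H27.HB
open scoped ContDiff ENNReal

theorem pf_LGB (hQF : T_QF) : T_LGB := by
  intro n x a r hr
  obtain ⟨-, h2, h3, -, -⟩ := hQF n x a r hr
  set c : ℝ := ‖cA a r‖ with hc
  have hc0 : 0 ≤ c := norm_nonneg _
  have hB : 0 ≤ ∑ i, ‖cB a r i‖ ^ 2 := Finset.sum_nonneg fun i _ => sq_nonneg _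
  have hc1 : 1 ≤ c := by nlinarith
  refine ⟨hc1, ?_⟩
  rw [quot_eq hQF x a hr, Real.log_pow]
  set S : ℝ := ‖∑ i, cB a r i * zz i x‖ with hS
  have hS0 : 0 ≤ S := norm_nonneg _
  have hS2 : S ^ 2 ≤ c ^ 2 - 1 := by
    have h4 : S ≤ ∑ i, ‖cB a r i‖ * ‖zz i x‖ := by
      refine (norm_sum_le _ _).trans (le_of_eq ?_)
      exact Finset.sum_congr rfl fun i _ => norm_mul _ _
    have h5 := Finset.sum_mul_sq_le_sq_mul_sq Finset.univ (fun i => ‖cB a r i‖) fun i => ‖zz i x‖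
    rw [h3, mul_one] at h5
    have h6 : S ^ 2 ≤ (∑ i, ‖cB a r i‖ * ‖zz i x‖) ^ 2 := pow_le_pow_left₀ hS0 h4 2
    linarith
  have hSc : S < c := by nlinarith
  have h7 : ‖cA a r + ∑ i, cB a r i * zz i x‖ ≤ 2 * c := by
    refine (norm_add_le _ _).trans ?_
    linarith
  have h8 : (2 * c)⁻¹ ≤ ‖cA a r + ∑ i, cB a r i * zz i x‖ := by
    have h9 : c - S ≤ ‖cA a r + ∑ i, cB a r i * zz i x‖ := norm_sub_le_norm_add _ _
    refine le_trans ?_ h9
    rw [inv_le_iff_one_le_mul₀ (by positivity)]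
    nlinarith
  have h9 : 0 < (2 * c)⁻¹ := by positivity
  have h10 := Real.log_le_log (h9.trans_le h8) h7
  have h11 := Real.log_le_log h9 h8
  rw [Real.log_inv] at h11
  rw [abs_le]
  constructor
  · push_cast
    linarith
  · push_cast
    linarith

end Pool.Agent.H15.HB
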