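import Pool.Agent.H15.HB.CB

set_option autoImplicit false

namespace Pool.Agent.H15.HB
open MeasureTheory Set Filter Topology Pool.Agent.H80.HS Pool.Agent.H93.HQ Pool.Agent.H27.HB
open scoped ContDiff ENNReal

lemma bound_rho_log (hLGB : T_LGB) {n : ℕ} {ρ : H n → ℝ} (a x : H n)
    {r T : ℝ} (hr : 0 < r) (hT : ‖cA a r‖ ≤ T) :
    ‖ρ x * Real.log (ww (dil r (mul a x)) / (r ^ 2 * ww x))‖ ≤
      ‖ρ x‖ * (2 * Real.log (2 * T)) := by
  rw [norm_mul]
  refine mul_le_mul_of_nonneg_left ?_ (norm_nonneg _)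
  obtain ⟨h1, h2⟩ := hLGB n x a r hr
  refine h2.trans ?_
  have h3 := Real.log_le_log (by positivity : 0 < 2 * ‖cA a r‖)
    (by linarith : 2 * ‖cA a r‖ ≤ 2 * T)
  linarith

theorem pf_MNC (_hQF : T_QF) (hLGB : T_LGB) (hPRO : T_PRO) : T_MNC := by
  intro n hn ρ h1 h2 h3
  obtain ⟨T₀, hT₀⟩ := hPRO n hn ρ h1 h2 h3 (Psi ρ (0, 1))
  set T : ℝ := max T₀ 1 with hT
  have hT1 : 1 ≤ T := le_max_right _ _
  have hT0 : 0 < T := by linarith
  -- the compact set
  set D : Set (H n × ℝ) := {q | (2 * T)⁻¹ ≤ q.2 ∧ ‖1 + (q.2 : ℂ) ^ 2 * nu q.1‖ ≤ 2 * q.2 * T}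
    with hD
  have hcA : ∀ (a : H n) (r : ℝ), 0 < r → cA a r = (1 + (r : ℂ) ^ 2 * nu a) / (2 * r) := by
    intro a r hr
    have hr' : (r : ℂ) ≠ 0 := by exact_mod_cast hr.ne'
    unfold cA
    push_cast
    field_simp
    ring
  have hnorm : ∀ (a : H n) (r : ℝ), 0 < r →
      (‖cA a r‖ ≤ T ↔ ‖1 + (r : ℂ) ^ 2 * nu a‖ ≤ 2 * r * T) := by
    intro a r hr
    rw [hcA a r hr, norm_div, norm_mul, Complex.norm_real, Real.norm_eq_abs, abs_of_pos hr]
    have h4 : ‖(2 : ℂ)‖ = 2 := by simp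
    rw [h4, div_le_iff₀ (by positivity)]
    constructor <;> intro h <;> linarith
  have hre : ∀ (a : H n) (r : ℝ), 0 < r → ‖1 + (r : ℂ) ^ 2 * nu a‖ ≤ 2 * r * T →
      1 + r ^ 2 * (1 + sq a) ≤ 2 * r * T ∧ r ^ 2 * |a.2.2| ≤ 2 * r * T := by
    intro a r hr h
    have e1 : (1 + (r : ℂ) ^ 2 * nu a).re = 1 + r ^ 2 * (1 + sq a) := by
      rw [← Complex.ofReal_pow, Complex.add_re, Complex.re_ofReal_mul]
      rfl
    have e2 : (1 + (r : ℂ) ^ 2 * nu a).im = r ^ 2 * (-a.2.2) := by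
      rw [← Complex.ofReal_pow, Complex.add_im, Complex.im_ofReal_mul, Complex.one_im, zero_add]
      rfl
    have h5 := (le_abs_self _).trans ((Complex.abs_re_le_norm _).trans h)
    have h6 := (Complex.abs_im_le_norm _).trans h
    rw [e1] at h5
    rw [e2, abs_mul, abs_neg, abs_of_nonneg (by positivity : (0 : ℝ) ≤ r ^ 2)] at h6
    exact ⟨h5, h6⟩
  have hDr : ∀ q ∈ D, 0 < q.2 := fun q hq =>
    lt_of_lt_of_le (by positivity) hq.1
  have hclosed : IsClosed D := by
    have h4 := continuous_nu (n := n)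
    have h5 : Continuous fun q : H n × ℝ => nu q.1 := h4.comp continuous_fst
    have h6 : Continuous fun q : H n × ℝ => (q.2 : ℂ) :=
      Complex.continuous_ofReal.comp continuous_snd
    have h7 : Continuous fun q : H n × ℝ => ‖1 + (q.2 : ℂ) ^ 2 * nu q.1‖ :=
      (continuous_const.add ((h6.pow 2).mul h5)).norm
    have h8 : Continuous fun q : H n × ℝ => 2 * q.2 * T :=
      (continuous_const.mul continuous_snd).mul continuous_const
    have h9 : Continuous fun q : H n × ℝ => q.2 := continuous_snd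
    exact (isClosed_le continuous_const h9).inter (isClosed_le h7 h8)
  have hbdd : Bornology.IsBounded D := by
    rw [isBounded_iff_forall_norm_le]
    refine ⟨4 * T ^ 2, fun q hq => ?_⟩
    have hr := hDr q hq
    obtain ⟨h4, h5⟩ := hre q.1 q.2 hr hq.2
    have hsq := sq_nonneg' q.1
    have h6 : q.2 ≤ 2 * T := by nlinarith
    have h7 : 1 ≤ 2 * T * q.2 := by
      have := hq.1
      rw [inv_le_iff_one_le_mul₀ (by positivity)] at this
      linarith
    -- `r (1 + sq a) ≤ 2 T`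
    have h8 : q.2 * (1 + sq q.1) ≤ 2 * T := by
      have : q.2 * (q.2 * (1 + sq q.1)) ≤ q.2 * (2 * T) := by nlinarith
      exact le_of_mul_le_mul_left this hr
    have h9 : sq q.1 ≤ 4 * T ^ 2 := by
      have : sq q.1 ≤ (2 * T * q.2) * (1 + sq q.1) := by nlinarith
      nlinarith
    have h10 : q.2 * |q.1.2.2| ≤ 2 * T := by
      have : q.2 * (q.2 * |q.1.2.2|) ≤ q.2 * (2 * T) := by nlinarith
      exact le_of_mul_le_mul_left this hr
    have h11 : |q.1.2.2| ≤ 4 * T ^ 2 := by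
      have h12 := abs_nonneg q.1.2.2
      have : |q.1.2.2| ≤ (2 * T * q.2) * |q.1.2.2| := by nlinarith
      nlinarith
    have h12 : ‖q.1.1‖ ^ 2 ≤ (2 * T) ^ 2 := by
      have : ‖q.1.1‖ ^ 2 ≤ sq q.1 := by unfold H93.HQ.sq; nlinarith [sq_nonneg ‖q.1.2.1‖]
      nlinarith
    have h13 : ‖q.1.2.1‖ ^ 2 ≤ (2 * T) ^ 2 := by
      have : ‖q.1.2.1‖ ^ 2 ≤ sq q.1 := by unfold H93.HQ.sq; nlinarith [sq_nonneg ‖q.1.1‖]
      nlinarith
    have h14 : ‖q.1.1‖ ≤ 2 * T := (abs_le_of_sq_le_sq' h12 (by positivity)).2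
    have h15 : ‖q.1.2.1‖ ≤ 2 * T := (abs_le_of_sq_le_sq' h13 (by positivity)).2
    have h16 : 2 * T ≤ 4 * T ^ 2 := by nlinarith
    rw [Prod.norm_def, Prod.norm_def, Prod.norm_def, Real.norm_eq_abs, Real.norm_eq_abs,
      abs_of_pos hr]
    refine max_le (max_le (h14.trans h16) (max_le (h15.trans h16) h11)) (h6.trans h16)
  have hcomp : IsCompact D := Metric.isCompact_of_isClosed_isBounded hclosed hbdd
  have h01 : ((0 : H n), (1 : ℝ)) ∈ D := by
    refine ⟨?_, ?_⟩
    · change (2 * T)⁻¹ ≤ 1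
      rw [inv_le_iff_one_le_mul₀ (by positivity)]
      linarith
    · change ‖1 + ((1 : ℝ) : ℂ) ^ 2 * nu (0 : H n)‖ ≤ 2 * 1 * T
      have h4 : nu (0 : H n) = 1 := by
        apply Complex.ext
        · simp [nu, H93.HQ.sq]
        · simp [nu]
      rw [h4]
      have h5 : (1 + ((1 : ℝ) : ℂ) ^ 2 * 1) = ((2 : ℝ) : ℂ) := by push_cast; norm_num
      rw [h5, Complex.norm_real]
      norm_num
      linarith
  have hcont : ContinuousOn (Psi ρ) D := by
    have hww := continuous_ww (n := n)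
    refine continuousOn_of_dominated (bound := fun x => ‖ρ x‖ * (2 * Real.log (2 * T)))
      (fun q hq => ?_) (fun q hq => ?_) (h1.norm.mul_const _) ?_
    · exact h1.aestronglyMeasurable.mul
        (continuous_log_quot q.1 (hDr q hq)).aestronglyMeasurable
    · exact Eventually.of_forall fun x =>
        bound_rho_log hLGB q.1 x (hDr q hq) ((hnorm q.1 q.2 (hDr q hq)).2 hq.2)
    · refine Eventually.of_forall fun x => ?_
      refine continuousOn_const.mul (ContinuousOn.log ?_ fun q hq =>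
        (quot_pos x q.1 (hDr q hq)).ne')
      refine ContinuousOn.div ?_ ?_ fun q hq => ?_
      · refine Continuous.continuousOn ?_
        have h4 : Continuous fun q : H n × ℝ => mul q.1 x :=
          continuous_mul'.comp (continuous_fst.prodMk continuous_const)
        exact hww.comp (continuous_dil'.comp (continuous_snd.prodMk h4))
      · exact (Continuous.mul (continuous_snd.pow 2) continuous_const).continuousOn
      · have := ww_pos x
        have := hDr q hq
        positivity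
  obtain ⟨q, hq, hmin⟩ := hcomp.exists_isMinOn ⟨_, h01⟩ hcont
  refine ⟨q.1, q.2, hDr q hq, fun a' r' hr' => ?_⟩
  change Psi ρ q ≤ _
  by_cases hin : ‖cA a' r'‖ ≤ T
  · refine hmin (show (a', r') ∈ D from ⟨?_, (hnorm a' r' hr').1 hin⟩)
    obtain ⟨h4, -⟩ := hre a' r' hr' ((hnorm a' r' hr').1 hin)
    change (2 * T)⁻¹ ≤ r'
    rw [inv_le_iff_one_le_mul₀ (by positivity)]
    have := sq_nonneg' a'
    nlinarith [mul_pos hr' hr']
  · push Not at hin
    have h4 : Psi ρ q ≤ Psi ρ (0, 1) := hmin h01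
    exact h4.trans (hT₀ a' r' hr' ((le_max_left _ _).trans hin.le))

end Pool.Agent.H15.HB
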