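import Pool.Agent.H15.HB.CB

set_option autoImplicit false

namespace Pool.Agent.H15.HB
open MeasureTheory Set Filter Topology Pool.Agent.H80.HS Pool.Agent.H93.HQ Pool.Agent.H27.HB
open scoped ContDiff ENNReal

theorem pf_PRO (hQF : T_QF) (hLGB : T_LGB) (hNAT : T_NAT) : T_PRO := by
  intro n hn ρ h1 h2 h3 K
  set m : ℝ := ∫ z, ρ z with hm
  obtain ⟨δ, hδ, hδ2⟩ := hNAT n ρ (m / 4) h1 h2 (by positivity)
  set L : ℝ := Real.log (δ / 2) with hL
  refine ⟨max 2 (Real.exp ((K + 2 * m * |L| + m / 2 * Real.log 2) / m)), fun a r hr hT => ?_⟩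
  set c : ℝ := ‖cA a r‖ with hc
  have hc2 : 2 ≤ c := (le_max_left _ _).trans hT
  have hc0 : 0 < c := by linarith
  have hcl : (K + 2 * m * |L| + m / 2 * Real.log 2) / m ≤ Real.log c := by
    have h4 := Real.log_le_log (Real.exp_pos _) ((le_max_right _ _).trans hT)
    rwa [Real.log_exp] at h4
  have hK : K ≤ m * Real.log c - 2 * m * |L| - m / 2 * Real.log 2 := by
    rw [div_le_iff₀ h3] at hcl
    linarith
  -- the direction
  set β : ℝ := Real.sqrt (c ^ 2 - 1) / c with hβ
  have hβs : Real.sqrt (c ^ 2 - 1) ^ 2 = c ^ 2 - 1 := Real.sq_sqrt (by nlinarith)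
  have hβ2 : β ^ 2 = (c ^ 2 - 1) / c ^ 2 := by rw [hβ, div_pow, hβs]
  have hs0 : 0 < Real.sqrt (c ^ 2 - 1) := Real.sqrt_pos.2 (by nlinarith)
  have hβ0 : 0 < β := by positivity
  have hβc : β * c = Real.sqrt (c ^ 2 - 1) := by rw [hβ]; field_simp
  have hβ1 : β ≤ 1 := by
    by_contra hlt
    push Not at hlt
    have h4 : (β * c) ^ 2 = c ^ 2 - 1 := by rw [hβc, hβs]
    have h5 : (1 * c) ^ 2 ≤ (β * c) ^ 2 :=
      pow_le_pow_left₀ (by positivity) (mul_le_mul_of_nonneg_right hlt.le hc0.le) 2
    linarith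
  have hβh : 1 / 2 ≤ β := by
    by_contra hlt
    push Not at hlt
    have h4 : (β * c) ^ 2 = c ^ 2 - 1 := by rw [hβc, hβs]
    have h5 : (β * c) ^ 2 ≤ (1 / 2 * c) ^ 2 :=
      pow_le_pow_left₀ (by positivity) (mul_le_mul_of_nonneg_right hlt.le hc0.le) 2
    nlinarith
  have hA0 : cA a r ≠ 0 := by
    intro h4
    rw [hc, h4, norm_zero] at hc0
    exact lt_irrefl _ hc0
  set e : Option (Fin n) → ℂ := fun i => cB a r i / (cA a r * (β : ℂ)) with he
  have hβC : (β : ℂ) ≠ 0 := by exact_mod_cast hβ0.ne'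
  have he1 : ∑ i, ‖e i‖ ^ 2 = 1 := by
    obtain ⟨-, h5, -, -, -⟩ := hQF n a a r hr
    have h6 : ∀ i, ‖e i‖ ^ 2 = ‖cB a r i‖ ^ 2 / (c ^ 2 - 1) := by
      intro i
      rw [he]
      simp only
      rw [norm_div, norm_mul, Complex.norm_real, Real.norm_eq_abs, abs_of_pos hβ0, ← hc, div_pow,
        mul_comm c β, hβc, hβs]
    rw [Finset.sum_congr rfl fun i _ => h6 i, ← Finset.sum_div]
    rw [div_eq_one_iff_eq (by nlinarith)]
    rw [← hc] at h5
    linarith
  have hbad := hδ2 e he1
  set D : Set (H n) := {x | ‖1 + ∑ i, e i * zz i x‖ < δ} with hD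
  have hDm : MeasurableSet D := by
    have h4 : Continuous fun x : H n => ‖1 + ∑ i, e i * zz i x‖ := by
      have h5 := fun i => continuous_zz (n := n) i
      fun_prop
    exact (isOpen_lt h4 continuous_const).measurableSet
  -- the pointwise inequality
  have hpt : ∀ x, ρ x * (2 * Real.log c - 2 * |L|) -
      D.indicator (fun x => ρ x * (4 * Real.log c + 2 * Real.log 2)) x ≤
      ρ x * Real.log (ww (dil r (mul a x)) / (r ^ 2 * ww x)) := by
    intro x
    obtain ⟨hl1, hl2⟩ := hLGB n x a r hr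
    have hlog2c : Real.log (2 * c) = Real.log 2 + Real.log c :=
      Real.log_mul (by norm_num) hc0.ne'
    by_cases hx : x ∈ D
    · rw [indicator_of_mem hx, ← mul_sub]
      refine mul_le_mul_of_nonneg_left ?_ (h2 x)
      have h5 := (abs_le.1 hl2).1
      rw [← hc, hlog2c] at h5
      have := abs_nonneg L
      linarith
    · rw [indicator_of_notMem hx, sub_zero]
      refine mul_le_mul_of_nonneg_left ?_ (h2 x)
      rw [quot_eq hQF x a hr, Real.log_pow]
      have hx' : δ ≤ ‖1 + ∑ i, e i * zz i x‖ := not_lt.1 hx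
      set w : ℂ := ∑ i, e i * zz i x with hw
      have hsum : cA a r + ∑ i, cB a r i * zz i x = cA a r * (1 + (β : ℂ) * w) := by
        have h6 : ∀ i, cB a r i * zz i x = cA a r * (β : ℂ) * (e i * zz i x) := by
          intro i
          rw [he]
          field_simp
        rw [Finset.sum_congr rfl fun i _ => h6 i, ← Finset.mul_sum]
        ring
      have hw1 : ‖w‖ ≤ 1 := by
        obtain ⟨-, -, h7, -, -⟩ := hQF n x a r hr
        have h8 : ‖w‖ ≤ ∑ i, ‖e i‖ * ‖zz i x‖ := by
          refine (norm_sum_le _ _).trans (le_of_eq ?_)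
          exact Finset.sum_congr rfl fun i _ => norm_mul _ _
        have h9 := Finset.sum_mul_sq_le_sq_mul_sq Finset.univ (fun i => ‖e i‖) fun i => ‖zz i x‖
        rw [h7, he1, mul_one] at h9
        have h10 : ∑ i, ‖e i‖ * ‖zz i x‖ ≤ 1 := by
          have : 0 ≤ ∑ i, ‖e i‖ * ‖zz i x‖ :=
            Finset.sum_nonneg fun i _ => mul_nonneg (norm_nonneg _) (norm_nonneg _)
          nlinarith
        linarith
      have hre : 0 ≤ 1 + w.re := by
        have := (abs_le.1 ((Complex.abs_re_le_norm w).trans hw1)).1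
        linarith
      have hlow : β * ‖1 + w‖ ≤ ‖1 + (β : ℂ) * w‖ := by
        have h11 : (β * ‖1 + w‖) ^ 2 ≤ ‖1 + (β : ℂ) * w‖ ^ 2 := by
          rw [mul_pow, ← Complex.normSq_eq_norm_sq, ← Complex.normSq_eq_norm_sq,
            Complex.normSq_apply, Complex.normSq_apply]
          simp only [Complex.add_re, Complex.one_re, Complex.add_im, Complex.one_im,
            Complex.mul_re, Complex.ofReal_re, Complex.ofReal_im, Complex.mul_im, zero_mul,
            sub_zero, add_zero, zero_add]
          have h12 : 0 ≤ β * (1 + w.re) * (1 - β) :=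
            mul_nonneg (mul_nonneg hβ0.le hre) (by linarith)
          nlinarith [sq_nonneg (1 - β)]
        exact (abs_le_of_sq_le_sq' h11 (norm_nonneg _)).2
      have hfin : c * (δ / 2) ≤ ‖cA a r + ∑ i, cB a r i * zz i x‖ := by
        rw [hsum, norm_mul, ← hc]
        refine mul_le_mul_of_nonneg_left ?_ hc0.le
        refine le_trans ?_ hlow
        nlinarith
      have h13 := Real.log_le_log (by positivity) hfin
      rw [Real.log_mul hc0.ne' (by positivity), ← hL] at h13
      have := neg_abs_le L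
      push_cast
      linarith
  -- integrate
  have hint : Integrable fun x => ρ x * (2 * Real.log c - 2 * |L|) := h1.mul_const _
  have hint2 : Integrable (D.indicator fun x => ρ x * (4 * Real.log c + 2 * Real.log 2)) :=
    (h1.mul_const _).indicator hDm
  have hmono := integral_mono (hint.sub hint2) (integrable_rho_log' hLGB h1 a hr) hpt
  rw [integral_sub' hint hint2, integral_mul_const, integral_indicator hDm,
    integral_mul_const] at hmono
  change _ ≤ Psi ρ (a, r) at hmono
  have hlogc : 0 ≤ Real.log c := Real.log_nonneg (by linarith)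
  have hlog2 : 0 ≤ Real.log 2 := Real.log_nonneg (by norm_num)
  have h14 : (∫ x in D, ρ x) * (4 * Real.log c + 2 * Real.log 2) ≤
      m / 4 * (4 * Real.log c + 2 * Real.log 2) :=
    mul_le_mul_of_nonneg_right hbad (by positivity)
  rw [← hm] at hmono
  nlinarith

end Pool.Agent.H15.HB
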